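import Pool.Agent.H60.SYM.Targets2
import Pool.Agent.H19.SYM.CHO

/-!
Binomial coefficients near the middle, quadratic loss.
-/

namespace Pool.Agent.H60.SYM

open Finset Filter

/-- ratio of binomial coefficients -/
theorem choose_ratio' (n : ℕ) (ρ : ℝ) (hρ : 0 ≤ ρ) : ∀ (r t : ℕ),
    (n : ℝ) - t ≤ ρ * (t + 1) → (n.choose (t + r) : ℝ) ≤ ρ ^ r * n.choose t := by
  intro r
  induction r with
  | zero => intro t _; simp
  | succ r ih =>
    intro t ht
    have h1 := ih t ht
    have h2 : n.choose (t + r + 1) * (t + r + 1) = n.choose (t + r) * (n - (t + r)) :=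
      Nat.choose_succ_right_eq n (t + r)
    have h2' : (n.choose (t + r + 1) : ℝ) * (t + r + 1) = n.choose (t + r) * ((n - (t + r) : ℕ) : ℝ) := by
      exact_mod_cast h2
    have h3 : ((n - (t + r) : ℕ) : ℝ) ≤ ρ * (t + r + 1) := by
      have h4 : ((n - (t + r) : ℕ) : ℝ) ≤ max ((n : ℝ) - (t + r)) 0 := by
        rcases le_or_gt (t + r) n with h | h
        · rw [Nat.cast_sub h]
          push_cast
          exact le_max_left _ _
        · rw [Nat.sub_eq_zero_of_le h.le]
          simp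
      refine h4.trans (max_le ?_ (by positivity))
      have h5 : (0 : ℝ) ≤ r := Nat.cast_nonneg r
      nlinarith [mul_nonneg hρ h5]
    have hpos : (0 : ℝ) < t + r + 1 := by positivity
    have h4 : (n.choose (t + r + 1) : ℝ) * (t + r + 1) ≤ (ρ * n.choose (t + r)) * (t + r + 1) := by
      rw [h2']
      calc (n.choose (t + r) : ℝ) * ((n - (t + r) : ℕ) : ℝ)
          ≤ n.choose (t + r) * (ρ * (t + r + 1)) :=
            mul_le_mul_of_nonneg_left h3 (Nat.cast_nonneg _)
        _ = (ρ * n.choose (t + r)) * (t + r + 1) := by ring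
    have h5 := le_of_mul_le_mul_right h4 hpos
    calc (n.choose (t + (r + 1)) : ℝ) ≤ ρ * n.choose (t + r) := h5
      _ ≤ ρ * (ρ ^ r * n.choose t) := mul_le_mul_of_nonneg_left h1 hρ
      _ = ρ ^ (r + 1) * n.choose t := by ring

theorem choG : T_CHOG := by
  intro δ hδ hδ4
  have hη : (0 : ℝ) < 12 * δ ^ 2 * Real.log 2 - 8 * δ ^ 2 := by
    have h1 : (0.69 : ℝ) < Real.log 2 := by
      have := Real.log_two_gt_d9
      linarith
    nlinarith [pow_pos hδ 2]
  set η : ℝ := 12 * δ ^ 2 * Real.log 2 - 8 * δ ^ 2 with hηdef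
  have hr : (1 : ℝ) < Real.exp η := Real.one_lt_exp_iff.mpr hη
  have hlim := tendsto_pow_const_div_const_pow_of_one_lt 1 hr
  have hev : ∀ᶠ n : ℕ in atTop, (n : ℝ) ^ 1 / (Real.exp η) ^ n < 1 / 2 :=
    (hlim.eventually (gt_mem_nhds (by norm_num : (0 : ℝ) < 1 / 2)))
  obtain ⟨n1, hn1⟩ := eventually_atTop.mp hev
  refine ⟨max n1 2, ?_⟩
  have main : ∀ n : ℕ, max n1 2 ≤ n → ∀ t : ℕ, t ≤ n / 2 → |(t : ℝ) - n / 2| ≤ δ * n →
      (2 : ℝ) ^ ((1 - 12 * δ ^ 2) * n) < n.choose t := by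
    intro n hn t ht htn
    have hn2 : 2 ≤ n := (le_max_right _ _).trans hn
    have hn0 : (2 : ℝ) ≤ n := by exact_mod_cast hn2
    have hb := hn1 n ((le_max_left _ _).trans hn)
    have hpow : 0 < (Real.exp η) ^ n := by positivity
    rw [pow_one, div_lt_iff₀ hpow] at hb
    have habs := (abs_le.mp htn).1
    have hδn : 0 ≤ δ * n := by positivity
    have hc := choose_ratio' n (Real.exp (8 * δ)) (Real.exp_pos _).le (n / 2 - t) t (by
      have h1 : 8 * δ + 1 ≤ Real.exp (8 * δ) := Real.add_one_le_exp _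
      have h2 : (0 : ℝ) ≤ t + 1 := by positivity
      have h3 : (8 * δ + 1) * (t + 1 : ℝ) ≤ Real.exp (8 * δ) * (t + 1) :=
        mul_le_mul_of_nonneg_right h1 h2
      have h4 : (n : ℝ) / 2 - δ * n ≤ t := by linarith
      have h5 : (n : ℝ) / 4 ≤ t := by nlinarith
      nlinarith)
    rw [Nat.add_sub_cancel' ht] at hc
    have hm := Pool.Agent.H19.SYM.middle n
    have hm1 : (2 : ℝ) ^ n ≤ (n + 1) * n.choose (n / 2) := by exact_mod_cast hm
    have hexp : (Real.exp (8 * δ)) ^ (n / 2 - t) ≤ Real.exp (8 * δ ^ 2 * n) := by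
      have h1 : ((n / 2 - t : ℕ) : ℝ) ≤ δ * n := by
        have h2 : ((n / 2 - t : ℕ) : ℝ) = ((n / 2 : ℕ) : ℝ) - t := by
          rw [Nat.cast_sub ht]
        have h3 : ((n / 2 : ℕ) : ℝ) ≤ (n : ℝ) / 2 := Nat.cast_div_le
        rw [h2]
        linarith
      rw [← Real.exp_nat_mul]
      apply Real.exp_le_exp.mpr
      calc ((n / 2 - t : ℕ) : ℝ) * (8 * δ) ≤ (δ * n) * (8 * δ) :=
            mul_le_mul_of_nonneg_right h1 (by positivity)
        _ = 8 * δ ^ 2 * n := by ring
    have hC : (0 : ℝ) < n.choose t := by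
      have : 0 < n.choose t := Nat.choose_pos (by omega)
      exact_mod_cast this
    have hb' : (n : ℝ) + 1 < (Real.exp η) ^ n := by linarith
    have hX : Real.exp (8 * δ ^ 2 * n) * (Real.exp η) ^ n = (2 : ℝ) ^ (12 * δ ^ 2 * n) := by
      have h2 : (2 : ℝ) ^ (12 * δ ^ 2 * n) = Real.exp (Real.log 2 * (12 * δ ^ 2 * n)) :=
        Real.rpow_def_of_pos (by norm_num) _
      rw [h2, ← Real.exp_nat_mul, ← Real.exp_add]
      congr 1
      rw [hηdef]
      ring
    have hY : (2 : ℝ) ^ ((1 - 12 * δ ^ 2) * n) * (2 : ℝ) ^ (12 * δ ^ 2 * n) = (2 : ℝ) ^ n := by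
      have h9 : (2 : ℝ) ^ n = (2 : ℝ) ^ (n : ℝ) := (Real.rpow_natCast 2 n).symm
      rw [h9, ← Real.rpow_add (by norm_num)]
      congr 1
      ring
    have hfin : (2 : ℝ) ^ n < (2 : ℝ) ^ (12 * δ ^ 2 * n) * n.choose t := by
      rw [← hX]
      calc (2 : ℝ) ^ n ≤ (n + 1) * n.choose (n / 2) := hm1
        _ ≤ (n + 1) * (Real.exp (8 * δ ^ 2 * n) * n.choose t) := by
            gcongr
            exact hc.trans (mul_le_mul_of_nonneg_right hexp hC.le)
        _ < (Real.exp η) ^ n * (Real.exp (8 * δ ^ 2 * n) * n.choose t) := by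
            apply mul_lt_mul_of_pos_right hb'
            positivity
        _ = _ := by ring
    have hZ : (0 : ℝ) < (2 : ℝ) ^ (12 * δ ^ 2 * n) := by positivity
    rw [← hY, mul_comm] at hfin
    exact lt_of_mul_lt_mul_left hfin hZ.le
  intro n hn t htn
  rcases le_or_gt t (n / 2) with h | h
  · exact main n hn t h htn
  · have hn2 : 2 ≤ n := (le_max_right _ _).trans hn
    have htle : t ≤ n := by
      have h1 := (abs_le.mp htn).2
      have hn0 : (2 : ℝ) ≤ n := by exact_mod_cast hn2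
      have : (t : ℝ) ≤ n := by nlinarith
      exact_mod_cast this
    have h2 : n - t ≤ n / 2 := by omega
    have h3 : |((n - t : ℕ) : ℝ) - n / 2| ≤ δ * n := by
      rw [Nat.cast_sub htle]
      have : (n : ℝ) - t - n / 2 = -((t : ℝ) - n / 2) := by ring
      rw [this, abs_neg]
      exact htn
    have h4 := main n hn (n - t) h2 h3
    rwa [Nat.choose_symm htle] at h4

end Pool.Agent.H60.SYM
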