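import Pool.Agent.H60.SYM.Targets

namespace Pool.Agent.H60.SYM

open Finset

theorem wt_zero' {ι : Type} [Fintype ι] : wt (0 : ι → ZMod 2) = 0 := by
  simp [wt]

theorem wt_add_le' {ι : Type} [Fintype ι] (y y' : ι → ZMod 2) : wt (y + y') ≤ wt y + wt y' := by
  classical
  unfold wt
  refine le_trans (card_le_card ?_) (card_union_le _ _)
  intro i hi
  simp only [mem_filter, mem_univ, true_and, mem_union, Pi.add_apply] at hi ⊢
  by_contra hcon
  push Not at hcon
  exact hi (by rw [hcon.1, hcon.2, add_zero])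

theorem wy_zero' {d M T : ℕ} : wy (0 : YY d M T) = 0 := by
  classical
  simp [wy, wt_zero']

theorem wy_add_le' {d M T : ℕ} (y y' : YY d M T) : wy (y + y') ≤ wy y + wy y' := by
  classical
  unfold wy
  have h1 := wt_add_le' y.1 y'.1
  have h2 : (univ.filter fun b => (y + y').2 b ≠ 0).card ≤
      (univ.filter fun b => y.2 b ≠ 0).card + (univ.filter fun b => y'.2 b ≠ 0).card := by
    refine le_trans (card_le_card ?_) (card_union_le _ _)
    intro i hi
    simp only [mem_filter, mem_univ, true_and, mem_union, Prod.snd_add, Pi.add_apply] at hi ⊢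
    by_contra hcon
    push Not at hcon
    exact hi (by rw [hcon.1, hcon.2, add_zero])
  have h3 : (y + y').1 = y.1 + y'.1 := rfl
  rw [h3]
  omega

/-- bilinear version of `NN` -/
def NL {n d M T : ℕ} (e : Fin M → Fin (d + 1) → Fin n) :
    YY d M T →ₗ[ZMod 2] VV n d M T →ₗ[ZMod 2] ZMod 2 :=
  LinearMap.mk₂ (ZMod 2) (fun y u => NN e y u)
    (by
      intro y y' u
      simp only [NN, Prod.fst_add, Prod.snd_add, Pi.add_apply, add_mul, sum_add_distrib]
      ring)
    (by
      intro c y u
      simp only [NN, Prod.smul_fst, Prod.smul_snd, Pi.smul_apply, smul_eq_mul, mul_add, mul_sum]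
      congr 1
      · refine sum_congr rfl fun i _ => sum_congr rfl fun p _ => by ring
      · refine sum_congr rfl fun i _ => sum_congr rfl fun p _ => by ring)
    (by
      intro y u u'
      simp only [NN, Prod.fst_add, Prod.snd_add, Pi.add_apply, mul_add, sum_add_distrib]
      ring)
    (by
      intro c y u
      simp only [NN, Prod.smul_fst, Prod.smul_snd, Pi.smul_apply, smul_eq_mul, mul_add, mul_sum]
      congr 1
      · refine sum_congr rfl fun i _ => sum_congr rfl fun p _ => by ring
      · refine sum_congr rfl fun i _ => sum_congr rfl fun p _ => by ring)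

@[simp] theorem NL_apply {n d M T : ℕ} (e : Fin M → Fin (d + 1) → Fin n) (y : YY d M T)
    (u : VV n d M T) : NL e y u = NN e y u := rfl

/-- the right hand side -/
def CC {d M T : ℕ} (c : Fin M → ZMod 2) : YY d M T →ₗ[ZMod 2] ZMod 2 where
  toFun y := ∑ j, y.1 j * c j
  map_add' y y' := by
    simp only [Prod.fst_add, Pi.add_apply, add_mul, sum_add_distrib]
  map_smul' r y := by
    simp only [Prod.smul_fst, Pi.smul_apply, smul_eq_mul, RingHom.id_apply, mul_sum, mul_assoc]

@[simp] theorem CC_apply {d M T : ℕ} (c : Fin M → ZMod 2) (y : YY d M T) :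
    CC c y = ∑ j, y.1 j * c j := rfl

theorem NL_zero {n d M T : ℕ} (e : Fin M → Fin (d + 1) → Fin n) (y : YY d M T)
    (h : NL e y = 0) : comb e y.1 = 0 := by
  classical
  have h0 : ∀ u, NN e y u = 0 := fun u => by
    have := congrArg (fun l => l u) h
    simpa using this
  have h2 : ∀ b p, y.2 b p = 0 := by
    intro b p
    have := h0 ((Pi.single b (Pi.single p 1) : Blocks M T → Fin d → ZMod 2), (0 : Fin n → ZMod 2))
    simp only [NN, Pi.zero_apply, mul_zero, sum_const_zero, add_zero, zero_add] at this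
    rw [Finset.sum_eq_single b, Finset.sum_eq_single p] at this
    · simpa using this
    · intro p' _ hp'
      simp [hp']
    · simp
    · intro b' _ hb'
      refine sum_eq_zero fun p' _ => ?_
      simp [hb']
    · simp
  funext v
  have h3 := h0 ((0 : Blocks M T → Fin d → ZMod 2), (Pi.single v 1 : Fin n → ZMod 2))
  simp only [NN, h2, zero_mul, sum_const_zero, add_zero] at h3
  have h4 : comb e y.1 v = ∑ i, ∑ p, y.1 i * (Pi.single v 1 : Fin n → ZMod 2) (e i p) := by
    unfold comb
    refine sum_congr rfl fun i _ => sum_congr rfl fun p _ => ?_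
    by_cases hv : e i p = v
    · subst hv
      simp
    · simp [hv]
  rw [h4, h3]
  rfl

theorem core (h1 : T_IND) (h2 : T_GAP) (h3 : T_INP) (h4 : T_ACT) : T_CORE := by
  intro m n s d M T P e E v₀ c C θ q t₁ t₂ hsym hinj hθ hcol hrow hmid hc
  obtain ⟨ha, hb, -, -⟩ := h4 m n d M T P E
  refine h1 (Pos m n) s C (VV n d M T) (YY d M T) (act E) (NL e) (CC c) wy θ
    (inst e E v₀ 0) (inst e E v₀ c) ha hb ?_ wy_zero' wy_add_le' ?_ ?_ ?_
  · intro u
    exact hsym _ _ _
  · intro g y hy1 hy2
    obtain ⟨u, a, hE, hag, hN⟩ := h2 m n s d M T P e E C θ q t₁ t₂ hsym hcol hrow hmid g y hy1 hy2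
    exact ⟨u, a, hE, hag, hN⟩
  · intro i u hu
    exact h3 m n d M T P e E v₀ c θ hinj hθ i u fun y hy1 hy2 => hu y hy1 hy2
  · intro y hy hN
    have hcomb := NL_zero e y hN
    have hwt : wt y.1 ≤ θ := by
      classical
      have : wt y.1 ≤ wy y := by
        unfold wy
        exact Nat.le_add_right _ _
      omega
    exact hc y.1 hwt hcomb

end Pool.Agent.H60.SYM
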