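import Pool.Agent.H60.SYM.Targets2

/-!
Copy of H19/SYM/SHIFT.lean (helper19) with explicit constants.
-/

namespace Pool.Agent.H60.SYM

open Finset

theorem shiftG (hHOEF : T_HOEF) : T_SHIFTG := by
  intro ε hε hε2 K hK2 n hn u J hJ
  have hK4 : 4 ≤ ε ^ 2 * K := by
    rw [div_le_iff₀ (by positivity)] at hK2
    linarith
  have hK3 : 1 ≤ ε * K := by
    have hK : (0 : ℝ) ≤ K := Nat.cast_nonneg K
    nlinarith [mul_nonneg hε.le hK]
  have hK0 : 0 < K := by
    rcases Nat.eq_zero_or_pos K with h | h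
    · rw [h] at hK3
      norm_num at hK3
    · exact h
  let ι := {i : Fin (K * n) // i ∉ J}
  have hcard : Fintype.card ι = K * n - J.card := by
    rw [Fintype.card_subtype_compl, Fintype.card_fin, Fintype.card_coe]
  have hJn : J.card ≤ K * n := by
    have h1 : n ≤ K * n := Nat.le_mul_of_pos_left n hK0
    omega
  have hN0 : 0 < Fintype.card ι := by
    rw [hcard]
    have h1 : n ≤ K * n := Nat.le_mul_of_pos_left n hK0
    omega
  set N : ℝ := (Fintype.card ι : ℝ) with hNdef
  have hNr : N = K * n - J.card := by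
    rw [hNdef, hcard, Nat.cast_sub hJn]
    push_cast
    ring
  have hn' : (1 : ℝ) ≤ n := by exact_mod_cast hn
  have hJ' : 2 * (J.card : ℝ) ≤ n := by exact_mod_cast hJ
  have hJ0 : (0 : ℝ) ≤ J.card := Nat.cast_nonneg _
  have hNpos : 0 < N := by
    rw [hNdef]
    exact_mod_cast hN0
  set a : ℝ := ε * (K * n) / 2 with ha
  have ha0 : 0 ≤ a := by positivity
  have hF := hHOEF ι a ha0 hN0
  set F := univ.filter fun z : ι → ZMod 2 => a ≤ |(wt z : ℝ) - Fintype.card ι / 2| with hFdef
  let Bad : (Fin n → Bool) → Finset (ι → ZMod 2) := fun x =>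
    univ.filter fun c => (fun i : ι => u x i.1 - c i) ∈ F
  have hBad : ∀ x, (Bad x).card ≤ F.card := by
    intro x
    refine card_le_card_of_injOn (fun c => fun i : ι => u x i.1 - c i) ?_ ?_
    · intro c hc
      simp only [Bad, coe_filter, mem_univ, true_and] at hc
      exact hc
    · intro c _ c' _ h
      funext i
      have := congrFun h i
      simpa using this
  have hFsmall : (2 : ℝ) ^ n * F.card < 2 ^ Fintype.card ι := by
    have h1 : ε ^ 2 * (K * n) / 2 ≤ 2 * a ^ 2 / N := by
      rw [le_div_iff₀ hNpos]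
      have hNle : N ≤ K * n := by
        rw [hNr]
        linarith
      have e1 : 2 * a ^ 2 = ε ^ 2 * (K * n) / 2 * (K * n) := by
        rw [ha]
        ring
      rw [e1]
      exact mul_le_mul_of_nonneg_left hNle (by positivity)
    have h2 : (2 : ℝ) * n ≤ ε ^ 2 * (K * n) / 2 := by
      have : 4 * (n : ℝ) ≤ (ε ^ 2 * K) * n := mul_le_mul_of_nonneg_right hK4 (by linarith)
      linarith
    have h3 : Real.exp (-(2 * a ^ 2 / N)) ≤ Real.exp (-(n + 1)) := by
      apply Real.exp_le_exp.mpr
      linarith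
    have h4 : Real.exp (-((n : ℝ) + 1)) < (1 / 2) ^ (n + 1) := by
      have h5 : Real.exp (-((n : ℝ) + 1)) = (Real.exp (-1)) ^ (n + 1) := by
        rw [← Real.exp_nat_mul]
        congr 1
        push_cast
        ring
      rw [h5]
      apply pow_lt_pow_left₀ _ (Real.exp_pos _).le (Nat.succ_ne_zero n)
      rw [Real.exp_neg, ← one_div]
      apply one_div_lt_one_div_of_lt (by norm_num)
      have := Real.exp_one_gt_d9
      linarith
    have h6 : (F.card : ℝ) ≤ 2 * 2 ^ Fintype.card ι * Real.exp (-(n + 1)) := by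
      refine hF.trans ?_
      exact mul_le_mul_of_nonneg_left h3 (by positivity)
    have h7 : (2 : ℝ) * 2 ^ Fintype.card ι * Real.exp (-(n + 1)) <
        2 * 2 ^ Fintype.card ι * (1 / 2) ^ (n + 1) :=
      mul_lt_mul_of_pos_left h4 (by positivity)
    calc (2 : ℝ) ^ n * F.card < 2 ^ n * (2 * 2 ^ Fintype.card ι * (1 / 2) ^ (n + 1)) :=
          mul_lt_mul_of_pos_left (h6.trans_lt h7) (by positivity)
      _ = 2 ^ Fintype.card ι := by
          rw [one_div, inv_pow, pow_succ]
          field_simp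
  have hex : ∃ c : ι → ZMod 2, ∀ x, c ∉ Bad x := by
    by_contra hcon
    push Not at hcon
    have h1 : (univ : Finset (ι → ZMod 2)) ⊆ univ.biUnion Bad := by
      intro c _
      obtain ⟨x, hx⟩ := hcon c
      exact mem_biUnion.mpr ⟨x, mem_univ x, hx⟩
    have h2 := card_le_card h1
    have h3 : (univ.biUnion Bad).card ≤ 2 ^ n * F.card := by
      refine card_biUnion_le.trans ?_
      refine (sum_le_card_nsmul _ _ F.card (fun x _ => hBad x)).trans ?_
      rw [card_univ, Fintype.card_fun, Fintype.card_bool, Fintype.card_fin, smul_eq_mul]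
    rw [card_univ, Fintype.card_fun, ZMod.card] at h2
    have h4 : ((2 ^ Fintype.card ι : ℕ) : ℝ) ≤ ((2 ^ n * F.card : ℕ) : ℝ) := by
      exact_mod_cast h2.trans h3
    push_cast at h4
    linarith
  obtain ⟨c, hc⟩ := hex
  refine ⟨fun i => if h : i ∈ J then 0 else c ⟨i, h⟩, fun i hi => by simp [hi], fun x => ?_⟩
  have h1 : wt (fun i : ι => u x i.1 - c i) ≤
      (univ.filter fun i => u x i ≠ (if h : i ∈ J then 0 else c ⟨i, h⟩)).card := by
    unfold wt
    refine card_le_card_of_injOn (fun i : ι => i.1) ?_ (fun i _ j _ h => Subtype.ext h)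
    intro i hi
    simp only [coe_filter, mem_univ, true_and] at hi ⊢
    have hi' : u x i.1 - c i ≠ 0 := hi
    change u x i.1 ≠ if h : i.1 ∈ J then 0 else c ⟨i.1, h⟩
    rw [dif_neg i.2]
    exact fun h => hi' (sub_eq_zero.mpr h)
  have h2 : ¬ (a ≤ |(wt (fun i : ι => u x i.1 - c i) : ℝ) - Fintype.card ι / 2|) := by
    intro h
    apply hc x
    simp only [Bad, mem_filter, mem_univ, true_and, hFdef]
    exact h
  rw [not_le] at h2
  have h3 := (abs_lt.mp h2).1
  have h1' : (wt (fun i : ι => u x i.1 - c i) : ℝ) ≤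
      ((univ.filter fun i => u x i ≠ (if h : i ∈ J then 0 else c ⟨i, h⟩)).card : ℝ) := by
    exact_mod_cast h1
  refine le_trans ?_ h1'
  have h5 : (1 : ℝ) * n ≤ (ε * K) * n := mul_le_mul_of_nonneg_right hK3 (by linarith)
  have h6 : (Fintype.card ι : ℝ) = K * n - J.card := hNr
  rw [h6] at h3
  push_cast
  rw [ha] at h3
  nlinarith

end Pool.Agent.H60.SYM
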