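import Pool.Agent.H60.SYM.Fin2
import Pool.Agent.H60.SYM.Core
import Pool.Agent.H60.SYM.ShiftG
import Pool.Agent.H60.SYM.ChoG
import Pool.Agent.H60.SYM.MatG
import Pool.Agent.H2.SYM.ORB
import Pool.Agent.H2.SYM.COL
import Pool.Agent.H2.SYM.GAP
import Pool.Agent.H2.SYM.IND
import Pool.Agent.H19.SYM.BIN
import Pool.Agent.H19.SYM.HOEF
import Pool.Agent.H19.SYM.SUPP
import Pool.Agent.H19.SYM.VIO
import Pool.Agent.H27.SYM.FOU
import Pool.Agent.H33.SYM.ROW
import Pool.Agent.H54.SYM.Crow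
import Pool.Agent.H54.SYM.Ext
import Pool.Agent.H54.SYM.Sat
import Pool.Agent.H99.SYM.Act
import Pool.Agent.H99.SYM.Inp
import Pool.Agent.H99.SYM.Val

/-!
All modules together.
-/

namespace Pool.Agent.H60.SYM

theorem main2 : Main2 := by
  have hORB := Pool.Agent.H2.SYM.orb
  have hAUT := Pool.Agent.H99.SYM.aut
  have hCOL := Pool.Agent.H2.SYM.col hORB hAUT
  have hROW := Pool.Agent.H33.SYM.ROW.row hORB hAUT
  have hGAP := Pool.Agent.H2.SYM.gap hROW hCOL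
  have hIND := Pool.Agent.H2.SYM.ind Pool.Agent.H99.SYM.val hAUT Pool.Agent.H54.SYM.ext
  have hCORE := core hIND hGAP Pool.Agent.H99.SYM.inp Pool.Agent.H99.SYM.act'
  have hHOEF := Pool.Agent.H19.SYM.hoef
  have hFOU := Pool.Agent.H27.SYM.fou Pool.Agent.H19.SYM.bin
  exact fin2 hCORE Pool.Agent.H54.SYM.wid Pool.Agent.H54.SYM.sat Pool.Agent.H19.SYM.vio
    Pool.Agent.H19.SYM.supp (shiftG hHOEF) (matG hFOU hHOEF) choG Pool.Agent.H54.SYM.crow

end Pool.Agent.H60.SYM
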