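import Pool.Agent.H60.SYM.Targets

/-!
Gap-SETH for symmetric circuits (MP_c62aed_lc): targets with explicit constants.
-/

namespace Pool.Agent.H60.SYM

open Finset

/-- The final statement: a pair of formulas that is not separated by symmetric circuits with few
gates -/
def Main2 : Prop :=
  ∀ k : ℕ, 2 ≤ k → ∃ c n₀ : ℕ, ∀ n ≥ n₀, ∀ m ≥ c * n, ∃ φ₀ φ₁ : Pos m n → Bool,
    WidthLE k φ₀ ∧ WidthLE k φ₁ ∧ Satisfiable φ₀ ∧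
    (∀ x, (1 - 1 / k) * m / 2 ^ k ≤ (Nat.card {j // Violates φ₁ x j} : ℝ)) ∧
    ∀ (s : ℕ) (C : Circuit (Pos m n) s), C.Symmetric → C.val φ₀ C.out ≠ C.val φ₁ C.out →
      (2 : ℝ) ^ ((1 - 500 * Real.log k ^ 2 / k) * n) ≤ s

/-- SHIFTG: right hand sides that are far from all of `2 ^ n` given vectors -/
def T_SHIFTG : Prop :=
  ∀ ε : ℝ, 0 < ε → ε ≤ 1 / 2 → ∀ K : ℕ, 4 / ε ^ 2 ≤ K → ∀ n : ℕ, 0 < n →
    ∀ (u : (Fin n → Bool) → Fin (K * n) → ZMod 2) (J : Finset (Fin (K * n))),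
      2 * J.card ≤ n → ∃ c : Fin (K * n) → ZMod 2, (∀ i ∈ J, c i = 0) ∧
        ∀ x, (1 / 2 - ε) * (K * n : ℕ) ≤ ((univ.filter fun i => u x i ≠ c i).card : ℝ)

/-- CHOG: binomial coefficients near the middle -/
def T_CHOG : Prop :=
  ∀ δ : ℝ, 0 < δ → δ ≤ 1 / 4 → ∃ n₀ : ℕ, ∀ n ≥ n₀, ∀ t : ℕ,
    |(t : ℝ) - n / 2| ≤ δ * n → (2 : ℝ) ^ ((1 - 12 * δ ^ 2) * n) < n.choose t

/-- MATG: existence of the system -/
def T_MATG : Prop :=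
  ∀ (d K : ℕ) (α δ : ℝ), 1 ≤ K → 0 < α → α ≤ 1 / 4 → 0 < δ →
    α * Real.log (Real.exp 1 * K / α) + Real.exp (-(α * (d + 1) / 8)) < 2 * δ ^ 2 →
    ∃ n₀ : ℕ, ∀ n ≥ n₀, ∃ e : Fin (K * n) → Fin (d + 1) → Fin n,
      (∀ i, Function.Injective (e i)) ∧
      ∀ y : Fin (K * n) → ZMod 2, α * n / 8 ≤ wt y → wt y ≤ α * n →
        |(wt (comb e y) : ℝ) - n / 2| ≤ δ * n

end Pool.Agent.H60.SYM
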