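import Pool.Agent.H60.SYM.Stmt

/-!
Gap-SETH for symmetric circuits (MP_c62aed_lc): definitions used in the proof.
-/

namespace Pool.Agent.H60.SYM

open Finset

/-- The final statement. -/
def Main : Prop :=
  ∀ ε : ℝ, 0 < ε → ∃ k₀ : ℕ, ∀ k ≥ k₀, ∃ c n₀ : ℕ, ∀ n ≥ n₀, ∀ m ≥ c * n,
    ∀ (s : ℕ) (C : Circuit (Pos m n) s), C.Symmetric →
      (∀ φ, WidthLE k φ → Satisfiable φ → C.val φ C.out = true) →
      (∀ φ, WidthLE k φ →
        (∀ x, (1 - ε) * m / 2 ^ k ≤ (Nat.card {j // Violates φ x j} : ℝ)) →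
        C.val φ C.out = false) →
      (2 : ℝ) ^ ((1 - ε) * n) ≤ s

/-! ### Vectors over the field with two elements -/

/-- Hamming weight -/
def wt {ι : Type} [Fintype ι] (y : ι → ZMod 2) : ℕ := (univ.filter fun i => y i ≠ 0).card

/-- Boolean of a bit, bit of a Boolean -/
def toB (b : ZMod 2) : Bool := decide (b = 1)
def toZ (b : Bool) : ZMod 2 := if b then 1 else 0

/-- sum of the rows of the system selected by `y`: coordinate `v` of `y M`, where the `i`-th
equation has the variables `e i 0, ..., e i d` -/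
def comb {M n d : ℕ} (e : Fin M → Fin (d + 1) → Fin n) (y : Fin M → ZMod 2) (v : Fin n) : ZMod 2 :=
  ∑ i, ∑ p, if e i p = v then y i else 0

/-! ### The formulas -/

/-- the forbidden pattern: of odd weight if `c = 0` and of even weight if `c = 1` -/
def pat {d : ℕ} (c : ZMod 2) (z : Fin d → ZMod 2) : Fin (d + 1) → ZMod 2 :=
  Fin.cons (∑ p, z p + 1 + c) z

/-- The rows of the formula are distributed (by `E`) over blocks: `M` equations, `T` copies of each,
one clause for every `z`; the remaining rows `P` contain both literals of `v₀`. -/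
abbrev Blocks (M T : ℕ) := Fin M × Fin T

/-- formula of the system `∑ p, x (e i p) = c i` -/
noncomputable def inst {m n d M T : ℕ} {P : Type} (e : Fin M → Fin (d + 1) → Fin n)
    (E : Fin m ≃ (Blocks M T × (Fin d → ZMod 2)) ⊕ P) (v₀ : Fin n) (c : Fin M → ZMod 2) :
    Pos m n → Bool :=
  fun q => by
    classical
    exact match E q.1 with
      | Sum.inl bz => decide (∃ p, e bz.1.1 p = q.2.1 ∧ toB (pat (c bz.1.1) bz.2 p) ≠ q.2.2)
      | Sum.inr _ => decide (q.2.1 = v₀)

/-- translation of the rows inside the blocks -/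
def rowPerm {m d : ℕ} {B P : Type} (E : Fin m ≃ (B × (Fin d → ZMod 2)) ⊕ P)
    (κ : B → Fin d → ZMod 2) : Equiv.Perm (Fin m) :=
  (E.trans (Equiv.sumCongr (Equiv.prodShear (Equiv.refl B) fun b => Equiv.addRight (κ b))
    (Equiv.refl P))).trans E.symm

/-- the group: translations in the blocks and exchanges of literals -/
abbrev VV (n d M T : ℕ) := (Blocks M T → Fin d → ZMod 2) × (Fin n → ZMod 2)

def act {m n d M T : ℕ} {P : Type} (E : Fin m ≃ (Blocks M T × (Fin d → ZMod 2)) ⊕ P)
    (u : VV n d M T) : Pos m n → Pos m n :=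
  move (rowPerm E u.1) 1 fun v => toB (u.2 v)

/-- the space of linear conditions -/
abbrev YY (d M T : ℕ) := (Fin M → ZMod 2) × (Blocks M T → Fin d → ZMod 2)

/-- the linear functional on the group attached to a condition (as a plain function) -/
def NN {n d M T : ℕ} (e : Fin M → Fin (d + 1) → Fin n) (y : YY d M T) (u : VV n d M T) : ZMod 2 :=
  ∑ i, ∑ p, y.1 i * u.2 (e i p) +
    ∑ b : Blocks M T, ∑ p : Fin d, y.2 b p * (u.1 b p + u.2 (e b.1 p.succ))

/-- weight of a condition -/
noncomputable def wy {d M T : ℕ} (y : YY d M T) : ℕ := by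
  classical
  exact wt y.1 + (univ.filter fun b => y.2 b ≠ 0).card

end Pool.Agent.H60.SYM
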