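import Pool.Agent.H60.SYM.Targets

namespace Pool.Agent.H60.SYM

open Finset

theorem fin (h1 : T_CORE) (h2 : T_WID) (h3 : T_SAT) (h4 : T_VIO) (h5 : T_SUPP) (h6 : T_SHIFT)
    (h7 : T_MAT) (h8 : T_CHO) (h9 : T_CROW) : Main := by
  intro ε hε
  by_cases hε1 : 1 ≤ ε
  · refine ⟨0, fun k _ => ⟨0, 0, fun n _ m _ s C _ _ _ => ?_⟩⟩
    have hs : (1 : ℝ) ≤ s := by
      have := C.out.pos
      exact_mod_cast this
    refine le_trans ?_ hs
    refine Real.rpow_le_one_of_one_le_of_nonpos (by norm_num) ?_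
    exact mul_nonpos_of_nonpos_of_nonneg (by linarith) (Nat.cast_nonneg n)
  push Not at hε1
  obtain ⟨δ, hδ, hδ4, nC, hC⟩ := h8 ε hε
  obtain ⟨K, hK, hS⟩ := h6 (ε / 4) (by positivity)
  obtain ⟨α, hα, hα4, d₀, hM⟩ := h7 (δ / 2) (by positivity) K hK
  refine ⟨d₀ + 2, fun k hk => ?_⟩
  obtain ⟨d, rfl⟩ : ∃ d, k = d + 1 := ⟨k - 1, by omega⟩
  have hd0 : d₀ ≤ d := by omega
  have hd1 : 1 ≤ d := by omega
  obtain ⟨nM, hM⟩ := hM d hd0
  have hdR : (1 : ℝ) ≤ d := by exact_mod_cast hd1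
  obtain ⟨α₂, hα₂⟩ : ∃ α₂ : ℝ, α₂ = min (α / 16) (δ / (8 * d)) := ⟨_, rfl⟩
  have hα₂pos : 0 < α₂ := by
    rw [hα₂]
    exact lt_min (by positivity) (by positivity)
  have hα₂le : α₂ ≤ α := by
    rw [hα₂]
    exact le_trans (min_le_left _ _) (by linarith)
  obtain ⟨K₁, hK₁⟩ := h9 α α₂ hα₂pos hα₂le
  obtain ⟨R, hR⟩ := exists_nat_ge (2 / ε)
  obtain ⟨T₀, hT₀⟩ : ∃ T₀ : ℕ, T₀ = max K₁ R + 1 := ⟨_, rfl⟩
  obtain ⟨nA, hnA⟩ := exists_nat_ge (64 / α)
  obtain ⟨nD, hnD⟩ := exists_nat_ge (8 * (d + 1) / δ)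
  refine ⟨K * 2 ^ d * T₀, max (max nC nM) (max nA nD) + 1, fun n hn m hm s C hsym hacc hrej => ?_⟩
  by_contra hcon
  push Not at hcon
  have hn1 : 0 < n := by omega
  have hnR : (0 : ℝ) < n := by exact_mod_cast hn1
  have hnC : nC ≤ n := by
    have := le_max_left (max nC nM) (max nA nD)
    have := le_max_left nC nM
    omega
  have hnM : nM ≤ n := by
    have := le_max_left (max nC nM) (max nA nD)
    have := le_max_right nC nM
    omega
  have hnA' : 64 / α ≤ n := by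
    refine le_trans hnA ?_
    have h1 := le_max_right (max nC nM) (max nA nD)
    have h2 := le_max_left nA nD
    have : nA ≤ n := by omega
    exact_mod_cast this
  have hnD' : 8 * (d + 1) / δ ≤ n := by
    refine le_trans hnD ?_
    have h1 := le_max_right (max nC nM) (max nA nD)
    have h2 := le_max_right nA nD
    have : nD ≤ n := by omega
    exact_mod_cast this
  have hαn : 64 ≤ α * n := by
    rw [div_le_iff₀ hα] at hnA'
    linarith
  have hδn : 8 * (d + 1) ≤ δ * n := by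
    rw [div_le_iff₀ hδ] at hnD'
    linarith
  -- number of copies
  obtain ⟨Q, hQ⟩ : ∃ Q : ℕ, Q = K * n * 2 ^ d := ⟨_, rfl⟩
  have hQpos : 0 < Q := by
    rw [hQ]
    positivity
  obtain ⟨T, hT⟩ : ∃ T : ℕ, T = m / Q := ⟨_, rfl⟩
  have hTT : T₀ ≤ T := by
    rw [hT, Nat.le_div_iff_mul_le hQpos]
    calc T₀ * Q = K * 2 ^ d * T₀ * n := by rw [hQ]; ring
      _ ≤ m := hm
  obtain ⟨pad, hpad⟩ : ∃ pad : ℕ, pad = m % Q := ⟨_, rfl⟩
  have hmd : m = K * n * T * 2 ^ d + pad := by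
    have := Nat.div_add_mod m Q
    rw [← this, hT, hpad, hQ]
    ring_nf
  obtain ⟨E⟩ : Nonempty (Fin m ≃ (Blocks (K * n) T × (Fin d → ZMod 2)) ⊕ Fin pad) := by
    refine Fintype.card_eq.mp ?_
    simp only [Fintype.card_fin, Fintype.card_sum, Fintype.card_prod, Fintype.card_pi,
      ZMod.card, prod_const, card_univ]
    exact hmd
  obtain ⟨e, hinj, hmid⟩ := hM n hnM
  -- thresholds
  obtain ⟨θ, hθ⟩ : ∃ θ : ℕ, θ = ⌊α * n / 2⌋₊ := ⟨_, rfl⟩
  obtain ⟨q, hq⟩ : ∃ q : ℕ, q = ⌈α₂ * n⌉₊ := ⟨_, rfl⟩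
  obtain ⟨t₁, ht₁⟩ : ∃ t₁ : ℕ, t₁ = ⌈(n : ℝ) / 2 - δ * n⌉₊ := ⟨_, rfl⟩
  obtain ⟨t₂, ht₂⟩ : ∃ t₂ : ℕ, t₂ = ⌊(n : ℝ) / 2 + δ * n⌋₊ := ⟨_, rfl⟩
  have hθle : (θ : ℝ) ≤ α * n / 2 := by
    rw [hθ]
    exact Nat.floor_le (by positivity)
  have hθge : α * n / 2 - 1 < θ := by
    have := Nat.lt_floor_add_one (α * n / 2)
    rw [← hθ] at this
    linarith
  have hqge : α₂ * n ≤ q := by
    rw [hq]
    exact Nat.le_ceil _
  have hqle : (q : ℝ) < α₂ * n + 1 := by
    rw [hq]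
    exact Nat.ceil_lt_add_one (by positivity)
  have hα16 : α₂ * n ≤ α * n / 16 := by
    have := min_le_left (α / 16) (δ / (8 * d))
    rw [← hα₂] at this
    calc α₂ * n ≤ α / 16 * n := by gcongr
      _ = α * n / 16 := by ring
  have hδ8 : d * (α₂ * n) ≤ δ * n / 8 := by
    have := min_le_right (α / 16) (δ / (8 * d))
    rw [← hα₂] at this
    calc (d : ℝ) * (α₂ * n) ≤ d * (δ / (8 * d) * n) := by gcongr
      _ = δ * n / 8 := by field_simp
  have hmid' : ∀ y : Fin (K * n) → ZMod 2, θ < wt y + q → wt y ≤ 2 * θ →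
      t₁ + d * q ≤ wt (comb e y) ∧ wt (comb e y) + d * q ≤ t₂ := by
    intro y hy1 hy2
    have hy1' : (θ : ℝ) < wt y + q := by exact_mod_cast hy1
    have hy2' : (wt y : ℝ) ≤ 2 * θ := by exact_mod_cast hy2
    have hw := hmid y (by linarith) (by linarith)
    rw [abs_le] at hw
    have hdq : (d : ℝ) * q ≤ δ * n / 8 + d := by
      calc (d : ℝ) * q ≤ d * (α₂ * n + 1) := by gcongr
        _ = d * (α₂ * n) + d := by ring
        _ ≤ _ := by linarith
    constructor
    · have h1 : (t₁ : ℝ) < n / 2 - δ * n + 1 := by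
        rw [ht₁]
        exact Nat.ceil_lt_add_one (by nlinarith)
      have : ((t₁ + d * q : ℕ) : ℝ) ≤ wt (comb e y) := by
        push_cast
        linarith
      exact_mod_cast this
    · have h1 : (n : ℝ) / 2 + δ * n - 1 < t₂ := by
        have := Nat.lt_floor_add_one ((n : ℝ) / 2 + δ * n)
        rw [← ht₂] at this
        linarith
      have : ((wt (comb e y) + d * q : ℕ) : ℝ) ≤ t₂ := by
        push_cast
        linarith
      exact_mod_cast this
  have ht₁pos : 0 < t₁ := by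
    rw [ht₁]
    exact Nat.ceil_pos.mpr (by nlinarith)
  -- small relations
  obtain ⟨J, hJ1, hJ2⟩ := h5 n d (K * n) θ e (by
    intro y hy1 hy2 h0
    have := (hmid' y (by omega) hy2).1
    rw [h0] at this
    have h0' : wt (0 : Fin n → ZMod 2) = 0 := by simp [wt]
    rw [h0'] at this
    have := Nat.zero_le (d * q)
    omega)
  obtain ⟨c, hc1, hc2⟩ := hS n hn1 (fun x i => ∑ p, toZ (x (e i p))) J (by
    have h1 : (J.card : ℝ) ≤ 2 * θ := by exact_mod_cast hJ1
    have h2 : α * n ≤ n / 4 := by nlinarith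
    have : ((2 * J.card : ℕ) : ℝ) ≤ n := by
      push_cast
      linarith
    exact_mod_cast this)
  have hzero : ∀ y : Fin (K * n) → ZMod 2, wt y ≤ θ → comb e y = 0 → ∑ i, y i * c i = 0 := by
    intro y hy1 hy2
    refine sum_eq_zero fun i _ => ?_
    by_cases hi : i ∈ J
    · rw [hc1 i hi, mul_zero]
    · rw [hJ2 y hy1 hy2 i hi, zero_mul]
  have hθ2 : 2 ≤ θ := by
    have : (2 : ℝ) ≤ θ := by linarith
    exact_mod_cast this
  have v₀ : Fin n := ⟨0, hn1⟩
  have hcol : ∀ t, t₁ ≤ t → t ≤ t₂ → s < n.choose t := by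
    intro t ht1 ht2
    have h1 : (n : ℝ) / 2 - δ * n ≤ t := by
      refine le_trans (Nat.le_ceil _) ?_
      rw [← ht₁]
      exact_mod_cast ht1
    have h2 : (t : ℝ) ≤ n / 2 + δ * n := by
      refine le_trans ?_ (Nat.floor_le (by positivity))
      rw [← ht₂]
      exact_mod_cast ht2
    have := hC n hnC t (by rw [abs_le]; constructor <;> linarith)
    exact_mod_cast lt_trans hcon this
  have hrow : ∀ t, q ≤ t → t ≤ 2 * θ → s < (K * n * T).choose t := by
    intro t ht1 ht2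
    have h1 : α₂ * n ≤ t := le_trans hqge (by exact_mod_cast ht1)
    have h2 : (t : ℝ) ≤ α * n := by
      have : (t : ℝ) ≤ 2 * θ := by exact_mod_cast ht2
      linarith
    have hKT : K₁ * n ≤ K * n * T := by
      have h3 : K₁ ≤ T := by
        have := le_max_left K₁ R
        omega
      calc K₁ * n ≤ T * n := Nat.mul_le_mul_right _ h3
        _ = 1 * n * T := by ring
        _ ≤ K * n * T := by gcongr; exact hK
    have h4 := hK₁ n (K * n * T) hKT t h1 h2
    refine lt_of_lt_of_le ?_ h4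
    have h5 : (s : ℝ) < 2 ^ n := by
      refine lt_of_lt_of_le hcon ?_
      rw [← Real.rpow_natCast]
      refine Real.rpow_le_rpow_of_exponent_le (by norm_num) ?_
      nlinarith
    exact_mod_cast h5
  have hcore := h1 m n s d (K * n) T (Fin pad) e E v₀ c C θ q t₁ t₂ hsym hinj hθ2 hcol hrow
    hmid' hzero
  have hA := hacc _ (h2 m n d (K * n) T (Fin pad) e E v₀ 0 hd1)
    (h3 m n d (K * n) T (Fin pad) e E v₀)
  have hB := hrej _ (h2 m n d (K * n) T (Fin pad) e E v₀ c hd1) (by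
    intro x
    rw [h4 m n d (K * n) T (Fin pad) e E v₀ c x hinj]
    have h6 := hc2 x
    have hTR : 2 / ε ≤ T := by
      refine le_trans hR ?_
      have h7 := le_max_right K₁ R
      have : R ≤ T := by omega
      exact_mod_cast this
    have hTpos : (0 : ℝ) < T := lt_of_lt_of_le (by positivity) hTR
    have hTε : 2 ≤ T * ε := by
      rw [div_le_iff₀ hε] at hTR
      exact hTR
    have hmle : (m : ℝ) ≤ K * n * (T + 1) * 2 ^ d := by
      have h8 : pad < Q := by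
        rw [hpad]
        exact Nat.mod_lt _ hQpos
      have h9 : m ≤ K * n * (T + 1) * 2 ^ d := by
        rw [hmd]
        have : K * n * (T + 1) * 2 ^ d = K * n * T * 2 ^ d + Q := by rw [hQ]; ring
        omega
      exact_mod_cast h9
    have hKn : (0 : ℝ) < K * n := by positivity
    push_cast at h6 ⊢
    have h10 : (1 - ε) * m / 2 ^ (d + 1) ≤ (1 - ε) * (K * n * (T + 1)) / 2 := by
      rw [div_le_div_iff₀ (by positivity) (by norm_num)]
      have : (1 - ε) * m ≤ (1 - ε) * (K * n * (T + 1) * 2 ^ d) := by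
        apply mul_le_mul_of_nonneg_left hmle
        linarith
      calc (1 - ε) * m * 2 ≤ (1 - ε) * (K * n * (T + 1) * 2 ^ d) * 2 := by linarith
        _ = (1 - ε) * (K * n * (T + 1)) * 2 ^ (d + 1) := by ring
    refine le_trans h10 ?_
    have h11 : (T : ℝ) * ((1 / 2 - ε / 4) * (K * n)) ≤
        T * ((univ.filter fun i => ∑ p, toZ (x (e i p)) ≠ c i).card : ℝ) := by
      gcongr
    refine le_trans ?_ h11
    have h12 : (1 - ε) * (T + 1) ≤ T * (1 - ε / 2) := by nlinarith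
    calc (1 - ε) * (K * n * (T + 1)) / 2 = ((1 - ε) * (T + 1)) * (K * n / 2) := by ring
      _ ≤ (T * (1 - ε / 2)) * (K * n / 2) := by gcongr
      _ = T * ((1 / 2 - ε / 4) * (K * n)) := by ring)
  rw [hA, hB] at hcore
  exact absurd hcore (by decide)

end Pool.Agent.H60.SYM
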