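import Pool.Agent.H60.SYM.Targets2

/-!
Assembly with explicit constants (MP_c62aed_lc).
-/

namespace Pool.Agent.H60.SYM

open Finset

/-- the formulas and the gap, for any system -/
theorem pair_gap (h4 : T_VIO) (k d K n m T pad : ℕ) (hk : k = d + 1) (hn1 : 0 < n) (hK : 0 < K)
    (hTk : 2 * k ≤ T) (hpad : pad < K * n * 2 ^ d)
    (hmd : m = K * n * T * 2 ^ d + pad)
    (e : Fin (K * n) → Fin (d + 1) → Fin n) (hinj : ∀ i, Function.Injective (e i))
    (E : Fin m ≃ (Blocks (K * n) T × (Fin d → ZMod 2)) ⊕ Fin pad) (v₀ : Fin n)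
    (c : Fin (K * n) → ZMod 2) (x : Fin n → Bool)
    (hc2 : (1 / 2 - 1 / (4 * k)) * ((K * n : ℕ) : ℝ) ≤
      ((univ.filter fun i => ∑ p, toZ (x (e i p)) ≠ c i).card : ℝ)) :
    (1 - 1 / k) * m / 2 ^ k ≤ (Nat.card {j // Violates (inst e E v₀ c) x j} : ℝ) := by
  rw [h4 m n d (K * n) T (Fin pad) e E v₀ c x hinj]
  have hk1 : (1 : ℝ) ≤ k := by
    have : 1 ≤ k := by omega
    exact_mod_cast this
  have hTR : 2 * (k : ℝ) ≤ T := by exact_mod_cast hTk
  have hmle : (m : ℝ) ≤ K * n * (T + 1) * 2 ^ d := by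
    have h9 : m ≤ K * n * (T + 1) * 2 ^ d := by
      rw [hmd]
      have : K * n * (T + 1) * 2 ^ d = K * n * T * 2 ^ d + K * n * 2 ^ d := by ring
      omega
    exact_mod_cast h9
  have hKn : (0 : ℝ) < K * n := by positivity
  have hε0 : (0 : ℝ) ≤ 1 - 1 / k := by
    have : (1 : ℝ) / k ≤ 1 := by
      rw [div_le_one (by linarith)]
      exact hk1
    linarith
  push_cast at hc2 ⊢
  have h10 : (1 - 1 / (k : ℝ)) * m / 2 ^ k ≤ (1 - 1 / k) * (K * n * (T + 1)) / 2 := by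
    rw [div_le_div_iff₀ (by positivity) (by norm_num)]
    have : (1 - 1 / (k : ℝ)) * m ≤ (1 - 1 / k) * (K * n * (T + 1) * 2 ^ d) :=
      mul_le_mul_of_nonneg_left hmle hε0
    calc (1 - 1 / (k : ℝ)) * m * 2 ≤ (1 - 1 / k) * (K * n * (T + 1) * 2 ^ d) * 2 := by linarith
      _ = (1 - 1 / k) * (K * n * (T + 1)) * 2 ^ (d + 1) := by ring
      _ = _ := by rw [← hk]
  refine le_trans h10 ?_
  have h11 : (T : ℝ) * ((1 / 2 - 1 / (4 * k)) * (K * n)) ≤
      T * ((univ.filter fun i => ∑ p, toZ (x (e i p)) ≠ c i).card : ℝ) := by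
    gcongr
  refine le_trans ?_ h11
  have h13 : (1 : ℝ) ≤ T * (1 / (2 * k)) := by
    rw [mul_one_div, le_div_iff₀ (by positivity)]
    linarith
  have h12 : (1 - 1 / (k : ℝ)) * (T + 1) ≤ T * (1 - 1 / (2 * k)) := by
    have h14 : (T : ℝ) * (1 / (2 * k)) = T * (1 / k) / 2 := by ring
    have h15 : (0 : ℝ) ≤ 1 / k := by positivity
    have h16 : (T : ℝ) * (1 - 1 / (2 * k)) = T - T * (1 / (2 * k)) := by ring
    have h17 : (1 - 1 / (k : ℝ)) * (T + 1) = T + 1 - T * (1 / k) - 1 / k := by ring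
    rw [h16, h17]
    linarith
  calc (1 - 1 / (k : ℝ)) * (K * n * (T + 1)) / 2 = ((1 - 1 / k) * (T + 1)) * (K * n / 2) := by ring
    _ ≤ (T * (1 - 1 / (2 * k))) * (K * n / 2) := by gcongr
    _ = T * ((1 / 2 - 1 / (4 * k)) * (K * n)) := by ring

/-- numerical inequality for the parameters -/
theorem param_ineq (k : ℕ) (L : ℝ) (hL : L = Real.log k) (hk : 500 * L ^ 2 < k) (hL1 : 1 ≤ L) :
    8 * L / k * Real.log (Real.exp 1 * ((64 * k ^ 2 : ℕ) : ℝ) / (8 * L / k)) +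
      Real.exp (-(8 * L / k * (k : ℝ) / 8)) < 2 * (26 / 5 * L / Real.sqrt k) ^ 2 := by
  have hk0 : (0 : ℝ) < k := by nlinarith
  have hexp : Real.exp (-(8 * L / k * (k : ℝ) / 8)) = 1 / k := by
    have h1 : 8 * L / k * (k : ℝ) / 8 = L := by field_simp
    rw [h1, Real.exp_neg, hL, Real.exp_log hk0, one_div]
  have hsq : 2 * (26 / 5 * L / Real.sqrt k) ^ 2 = 2 * (26 / 5) ^ 2 * L ^ 2 / k := by
    rw [div_pow, Real.sq_sqrt hk0.le]
    ring
  have hlog : Real.log (Real.exp 1 * ((64 * k ^ 2 : ℕ) : ℝ) / (8 * L / k)) ≤ 1 + 3 * Real.log 2 + 3 * L := by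
    have h1 : Real.exp 1 * ((64 * k ^ 2 : ℕ) : ℝ) / (8 * L / k) = Real.exp 1 * (8 * k ^ 3 / L) := by
      push_cast
      field_simp
      ring
    have h2 : (8 * (k : ℝ) ^ 3 / L) ≤ 8 * k ^ 3 := by
      apply div_le_self (by positivity) hL1
    have h3 : Real.log (Real.exp 1 * (8 * k ^ 3 / L)) ≤ Real.log (Real.exp 1 * (8 * k ^ 3)) := by
      apply Real.log_le_log (by positivity)
      gcongr
    rw [h1]
    refine h3.trans (le_of_eq ?_)
    rw [Real.log_mul (Real.exp_pos 1).ne' (by positivity), Real.log_exp,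
      Real.log_mul (by norm_num) (by positivity), Real.log_pow,
      show (8 : ℝ) = 2 ^ 3 by norm_num, Real.log_pow, hL]
    push_cast
    ring
  have hlog2 : Real.log 2 < 0.6931471808 := Real.log_two_lt_d9
  rw [hexp, hsq]
  have h5 : 8 * L / k * Real.log (Real.exp 1 * ((64 * k ^ 2 : ℕ) : ℝ) / (8 * L / k)) ≤
      8 * L / k * (1 + 3 * Real.log 2 + 3 * L) := by
    apply mul_le_mul_of_nonneg_left hlog
    positivity
  have h6 : 8 * L / k * (1 + 3 * Real.log 2 + 3 * L) + 1 / k =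
      (8 * L * (1 + 3 * Real.log 2 + 3 * L) + 1) / k := by
    field_simp
  have h7 : (8 * L * (1 + 3 * Real.log 2 + 3 * L) + 1) / k < 2 * (26 / 5) ^ 2 * L ^ 2 / k := by
    apply div_lt_div_of_pos_right _ hk0
    nlinarith
  linarith

/-- the trivial range of the parameters -/
theorem fin2_small (h2 : T_WID) (h3 : T_SAT) (h4 : T_VIO) (h6 : T_SHIFTG) (k : ℕ) (hk2 : 2 ≤ k)
    (hk : (k : ℝ) ≤ 500 * Real.log k ^ 2) :
    ∃ c n₀ : ℕ, ∀ n ≥ n₀, ∀ m ≥ c * n, ∃ φ₀ φ₁ : Pos m n → Bool,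
    WidthLE k φ₀ ∧ WidthLE k φ₁ ∧ Satisfiable φ₀ ∧
    (∀ x, (1 - 1 / k) * m / 2 ^ k ≤ (Nat.card {j // Violates φ₁ x j} : ℝ)) ∧
    ∀ (s : ℕ) (C : Circuit (Pos m n) s), C.Symmetric → C.val φ₀ C.out ≠ C.val φ₁ C.out →
      (2 : ℝ) ^ ((1 - 500 * Real.log k ^ 2 / k) * n) ≤ s := by
  obtain ⟨d, rfl⟩ : ∃ d, k = d + 1 := ⟨k - 1, by omega⟩
  have hd1 : 1 ≤ d := by omega
  obtain ⟨K, hK⟩ : ∃ K : ℕ, K = 64 * (d + 1) ^ 2 := ⟨_, rfl⟩
  have hKpos : 0 < K := by rw [hK]; positivity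
  refine ⟨K * 2 ^ d * (2 * (d + 1)), d + 1, fun n hn m hm => ?_⟩
  have hn1 : 0 < n := by omega
  obtain ⟨Q, hQ⟩ : ∃ Q : ℕ, Q = K * n * 2 ^ d := ⟨_, rfl⟩
  have hQpos : 0 < Q := by
    rw [hQ]
    positivity
  obtain ⟨T, hT⟩ : ∃ T : ℕ, T = m / Q := ⟨_, rfl⟩
  have hTT : 2 * (d + 1) ≤ T := by
    rw [hT, Nat.le_div_iff_mul_le hQpos]
    calc 2 * (d + 1) * Q = K * 2 ^ d * (2 * (d + 1)) * n := by rw [hQ]; ring
      _ ≤ m := hm
  obtain ⟨pad, hpad⟩ : ∃ pad : ℕ, pad = m % Q := ⟨_, rfl⟩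
  have hpadlt : pad < K * n * 2 ^ d := by
    rw [← hQ, hpad]
    exact Nat.mod_lt _ hQpos
  have hmd : m = K * n * T * 2 ^ d + pad := by
    have := Nat.div_add_mod m Q
    rw [← this, hT, hpad, hQ]
    ring_nf
  obtain ⟨E⟩ : Nonempty (Fin m ≃ (Blocks (K * n) T × (Fin d → ZMod 2)) ⊕ Fin pad) := by
    refine Fintype.card_eq.mp ?_
    simp only [Fintype.card_fin, Fintype.card_sum, Fintype.card_prod, Fintype.card_pi,
      ZMod.card, prod_const, card_univ]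
    exact hmd
  let e : Fin (K * n) → Fin (d + 1) → Fin n := fun _ p => ⟨p, by have := p.2; omega⟩
  have hinj : ∀ i, Function.Injective (e i) := by
    intro i p p' h
    have := congrArg Fin.val h
    exact Fin.ext this
  have v₀ : Fin n := ⟨0, hn1⟩
  have hkR : (2 : ℝ) ≤ ((d + 1 : ℕ) : ℝ) := by exact_mod_cast hk2
  have hk0 : (0 : ℝ) < ((d + 1 : ℕ) : ℝ) := by linarith
  obtain ⟨c, hc1, hc2⟩ := h6 (1 / (4 * ((d + 1 : ℕ) : ℝ))) (by positivity) (by
      rw [div_le_div_iff₀ (by positivity) (by norm_num)]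
      linarith) K (by
      rw [hK]
      apply le_of_eq
      push_cast
      field_simp
      ring) n hn1 (fun x i => ∑ p, toZ (x (e i p))) ∅ (by simp)
  refine ⟨inst e E v₀ 0, inst e E v₀ c, h2 m n d (K * n) T (Fin pad) e E v₀ 0 hd1,
    h2 m n d (K * n) T (Fin pad) e E v₀ c hd1, h3 m n d (K * n) T (Fin pad) e E v₀, ?_, ?_⟩
  · intro x
    exact pair_gap h4 (d + 1) d K n m T pad rfl hn1 hKpos hTT hpadlt hmd e hinj E v₀ c x (hc2 x)
  · intro s C _ _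
    have hs : (1 : ℝ) ≤ s := by
      have := C.out.pos
      exact_mod_cast this
    refine le_trans ?_ hs
    refine Real.rpow_le_one_of_one_le_of_nonpos (by norm_num) ?_
    refine mul_nonpos_of_nonpos_of_nonneg ?_ (Nat.cast_nonneg n)
    have : 1 ≤ 500 * Real.log ((d + 1 : ℕ) : ℝ) ^ 2 / ((d + 1 : ℕ) : ℝ) := by
      rw [le_div_iff₀ hk0]
      linarith
    linarith

/-- the main range of the parameters -/
theorem fin2_large (h1 : T_CORE) (h2 : T_WID) (h3 : T_SAT) (h4 : T_VIO) (h5 : T_SUPP)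
    (h6 : T_SHIFTG) (h7 : T_MATG) (h8 : T_CHOG) (h9 : T_CROW) (k : ℕ) (hk2 : 2 ≤ k)
    (hk : 500 * Real.log k ^ 2 < (k : ℝ)) :
    ∃ c n₀ : ℕ, ∀ n ≥ n₀, ∀ m ≥ c * n, ∃ φ₀ φ₁ : Pos m n → Bool,
    WidthLE k φ₀ ∧ WidthLE k φ₁ ∧ Satisfiable φ₀ ∧
    (∀ x, (1 - 1 / k) * m / 2 ^ k ≤ (Nat.card {j // Violates φ₁ x j} : ℝ)) ∧
    ∀ (s : ℕ) (C : Circuit (Pos m n) s), C.Symmetric → C.val φ₀ C.out ≠ C.val φ₁ C.out →
      (2 : ℝ) ^ ((1 - 500 * Real.log k ^ 2 / k) * n) ≤ s := by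
  obtain ⟨L, hL⟩ : ∃ L : ℝ, L = Real.log k := ⟨_, rfl⟩
  rw [← hL] at hk ⊢
  have hkR : (2 : ℝ) ≤ k := by exact_mod_cast hk2
  have hk0 : (0 : ℝ) < k := by linarith
  have hL0 : (0.69 : ℝ) < L := by
    have h1 : Real.log 2 ≤ Real.log k := Real.log_le_log (by norm_num) hkR
    have := Real.log_two_gt_d9
    linarith
  have hk3 : (3 : ℝ) ≤ k := by nlinarith
  have hL1 : 1 ≤ L := by
    have h1 : Real.log (Real.exp 1) ≤ Real.log k := by
      apply Real.log_le_log (Real.exp_pos 1)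
      have := Real.exp_one_lt_d9
      linarith
    rw [Real.log_exp] at h1
    linarith
  obtain ⟨K, hK⟩ : ∃ K : ℕ, K = 64 * k ^ 2 := ⟨_, rfl⟩
  have hKpos : 0 < K := by rw [hK]; positivity
  obtain ⟨sk, hsk⟩ : ∃ sk : ℝ, sk = Real.sqrt k := ⟨_, rfl⟩
  have hsk0 : 0 < sk := by rw [hsk]; exact Real.sqrt_pos.mpr hk0
  have hsk2 : sk ^ 2 = k := by rw [hsk]; exact Real.sq_sqrt hk0.le
  have hskL : 22 * L < sk := by nlinarith
  obtain ⟨α, hα⟩ : ∃ α : ℝ, α = 8 * L / k := ⟨_, rfl⟩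
  have hα0 : 0 < α := by rw [hα]; positivity
  have hα4 : α ≤ 1 / 4 := by
    rw [hα, div_le_div_iff₀ hk0 (by norm_num)]
    nlinarith
  obtain ⟨δM, hδM⟩ : ∃ δM : ℝ, δM = 26 / 5 * L / sk := ⟨_, rfl⟩
  obtain ⟨δ, hδ⟩ : ∃ δ : ℝ, δ = 11 / 2 * L / sk := ⟨_, rfl⟩
  have hδM0 : 0 < δM := by rw [hδM]; positivity
  have hδ0 : 0 < δ := by rw [hδ]; positivity
  have hδ4 : δ ≤ 1 / 4 := by
    rw [hδ, div_le_div_iff₀ hsk0 (by norm_num)]
    linarith
  obtain ⟨σ, hσ⟩ : ∃ σ : ℝ, σ = δ - δM := ⟨_, rfl⟩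
  have hσ0 : 0 < σ := by
    have : σ = 3 / 10 * L / sk := by
      rw [hσ, hδ, hδM]
      ring
    rw [this]
    positivity
  have hδ2 : 12 * δ ^ 2 ≤ 500 * L ^ 2 / k := by
    have : 12 * δ ^ 2 = 363 * L ^ 2 / k := by
      rw [hδ, div_pow, hsk2]
      ring
    rw [this]
    apply div_le_div_of_nonneg_right _ hk0.le
    nlinarith
  obtain ⟨d, hd⟩ : ∃ d, k = d + 1 := ⟨k - 1, by omega⟩
  have hd1 : 1 ≤ d := by omega
  have hdR : (1 : ℝ) ≤ d := by exact_mod_cast hd1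
  obtain ⟨nM, hM⟩ := h7 d K α δM hKpos hα0 hα4 hδM0 (by
    have h := param_ineq k L hL hk hL1
    have h' : ((d : ℝ) + 1) = k := by
      rw [hd]
      push_cast
      ring
    rw [h', hα, hK, hδM, hsk]
    exact h)
  obtain ⟨nC, hC⟩ := h8 δ hδ0 hδ4
  obtain ⟨α₂, hα₂⟩ : ∃ α₂ : ℝ, α₂ = min (α / 16) (σ / (2 * d)) := ⟨_, rfl⟩
  have hα₂pos : 0 < α₂ := by
    rw [hα₂]
    exact lt_min (by positivity) (by positivity)
  have hα₂le : α₂ ≤ α := by
    rw [hα₂]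
    exact le_trans (min_le_left _ _) (by linarith)
  obtain ⟨K₁, hK₁⟩ := h9 α α₂ hα₂pos hα₂le
  obtain ⟨T₀, hT₀⟩ : ∃ T₀ : ℕ, T₀ = max K₁ (2 * k) + 1 := ⟨_, rfl⟩
  obtain ⟨nA, hnA⟩ := exists_nat_ge (64 / α)
  obtain ⟨nD, hnD⟩ := exists_nat_ge (2 * (d + 1) / σ)
  refine ⟨K * 2 ^ d * T₀, max (max nC nM) (max nA nD) + 1, fun n hn m hm => ?_⟩
  have hn1 : 0 < n := by omega
  have hnR : (0 : ℝ) < n := by exact_mod_cast hn1
  have hnC : nC ≤ n := by
    have := le_max_left (max nC nM) (max nA nD)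
    have := le_max_left nC nM
    omega
  have hnM : nM ≤ n := by
    have := le_max_left (max nC nM) (max nA nD)
    have := le_max_right nC nM
    omega
  have hαn : 64 ≤ α * n := by
    have hnA' : 64 / α ≤ n := by
      refine le_trans hnA ?_
      have h1 := le_max_right (max nC nM) (max nA nD)
      have h2 := le_max_left nA nD
      have : nA ≤ n := by omega
      exact_mod_cast this
    rw [div_le_iff₀ hα0] at hnA'
    linarith
  have hσn : 2 * (d + 1) ≤ σ * n := by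
    have hnD' : 2 * (d + 1) / σ ≤ n := by
      refine le_trans hnD ?_
      have h1 := le_max_right (max nC nM) (max nA nD)
      have h2 := le_max_right nA nD
      have : nD ≤ n := by omega
      exact_mod_cast this
    rw [div_le_iff₀ hσ0] at hnD'
    linarith
  -- number of copies
  obtain ⟨Q, hQ⟩ : ∃ Q : ℕ, Q = K * n * 2 ^ d := ⟨_, rfl⟩
  have hQpos : 0 < Q := by
    rw [hQ]
    positivity
  obtain ⟨T, hT⟩ : ∃ T : ℕ, T = m / Q := ⟨_, rfl⟩
  have hTT : T₀ ≤ T := by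
    rw [hT, Nat.le_div_iff_mul_le hQpos]
    calc T₀ * Q = K * 2 ^ d * T₀ * n := by rw [hQ]; ring
      _ ≤ m := hm
  have hTk : 2 * k ≤ T := by
    have := le_max_right K₁ (2 * k)
    omega
  obtain ⟨pad, hpad⟩ : ∃ pad : ℕ, pad = m % Q := ⟨_, rfl⟩
  have hpadlt : pad < K * n * 2 ^ d := by
    rw [← hQ, hpad]
    exact Nat.mod_lt _ hQpos
  have hmd : m = K * n * T * 2 ^ d + pad := by
    have := Nat.div_add_mod m Q
    rw [← this, hT, hpad, hQ]
    ring_nf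
  obtain ⟨E⟩ : Nonempty (Fin m ≃ (Blocks (K * n) T × (Fin d → ZMod 2)) ⊕ Fin pad) := by
    refine Fintype.card_eq.mp ?_
    simp only [Fintype.card_fin, Fintype.card_sum, Fintype.card_prod, Fintype.card_pi,
      ZMod.card, prod_const, card_univ]
    exact hmd
  obtain ⟨e, hinj, hmid⟩ := hM n hnM
  -- thresholds
  obtain ⟨θ, hθ⟩ : ∃ θ : ℕ, θ = ⌊α * n / 2⌋₊ := ⟨_, rfl⟩
  obtain ⟨q, hq⟩ : ∃ q : ℕ, q = ⌈α₂ * n⌉₊ := ⟨_, rfl⟩
  obtain ⟨t₁, ht₁⟩ : ∃ t₁ : ℕ, t₁ = ⌈(n : ℝ) / 2 - δ * n⌉₊ := ⟨_, rfl⟩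
  obtain ⟨t₂, ht₂⟩ : ∃ t₂ : ℕ, t₂ = ⌊(n : ℝ) / 2 + δ * n⌋₊ := ⟨_, rfl⟩
  have hθle : (θ : ℝ) ≤ α * n / 2 := by
    rw [hθ]
    exact Nat.floor_le (by positivity)
  have hθge : α * n / 2 - 1 < θ := by
    have := Nat.lt_floor_add_one (α * n / 2)
    rw [← hθ] at this
    linarith
  have hqge : α₂ * n ≤ q := by
    rw [hq]
    exact Nat.le_ceil _
  have hqle : (q : ℝ) < α₂ * n + 1 := by
    rw [hq]
    exact Nat.ceil_lt_add_one (by positivity)
  have hα16 : α₂ * n ≤ α * n / 16 := by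
    have := min_le_left (α / 16) (σ / (2 * d))
    rw [← hα₂] at this
    calc α₂ * n ≤ α / 16 * n := by gcongr
      _ = α * n / 16 := by ring
  have hσ2 : d * (α₂ * n) ≤ σ * n / 2 := by
    have := min_le_right (α / 16) (σ / (2 * d))
    rw [← hα₂] at this
    calc (d : ℝ) * (α₂ * n) ≤ d * (σ / (2 * d) * n) := by gcongr
      _ = σ * n / 2 := by field_simp
  have hσδ : σ * n = δ * n - δM * n := by
    rw [hσ]
    ring
  have hδn4 : δ * n ≤ n / 4 := by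
    have := mul_le_mul_of_nonneg_right hδ4 hnR.le
    linarith
  have hmid' : ∀ y : Fin (K * n) → ZMod 2, θ < wt y + q → wt y ≤ 2 * θ →
      t₁ + d * q ≤ wt (comb e y) ∧ wt (comb e y) + d * q ≤ t₂ := by
    intro y hy1 hy2
    have hy1' : (θ : ℝ) < wt y + q := by exact_mod_cast hy1
    have hy2' : (wt y : ℝ) ≤ 2 * θ := by exact_mod_cast hy2
    have hw := hmid y (by linarith) (by linarith)
    rw [abs_le] at hw
    have hdq : (d : ℝ) * q ≤ σ * n / 2 + d := by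
      calc (d : ℝ) * q ≤ d * (α₂ * n + 1) := by gcongr
        _ = d * (α₂ * n) + d := by ring
        _ ≤ _ := by linarith
    constructor
    · have h1 : (t₁ : ℝ) < n / 2 - δ * n + 1 := by
        rw [ht₁]
        exact Nat.ceil_lt_add_one (by linarith)
      have : ((t₁ + d * q : ℕ) : ℝ) ≤ wt (comb e y) := by
        push_cast
        linarith
      exact_mod_cast this
    · have h1 : (n : ℝ) / 2 + δ * n - 1 < t₂ := by
        have := Nat.lt_floor_add_one ((n : ℝ) / 2 + δ * n)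
        rw [← ht₂] at this
        linarith
      have : ((wt (comb e y) + d * q : ℕ) : ℝ) ≤ t₂ := by
        push_cast
        linarith
      exact_mod_cast this
  have ht₁pos : 0 < t₁ := by
    rw [ht₁]
    exact Nat.ceil_pos.mpr (by linarith)
  -- small relations
  obtain ⟨J, hJ1, hJ2⟩ := h5 n d (K * n) θ e (by
    intro y hy1 hy2 h0
    have := (hmid' y (by omega) hy2).1
    rw [h0] at this
    have h0' : wt (0 : Fin n → ZMod 2) = 0 := by simp [wt]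
    rw [h0'] at this
    have := Nat.zero_le (d * q)
    omega)
  obtain ⟨c, hc1, hc2⟩ := h6 (1 / (4 * k)) (by positivity) (by
      rw [div_le_div_iff₀ (by positivity) (by norm_num)]
      linarith) K (by
      rw [hK]
      apply le_of_eq
      push_cast
      field_simp
      ring) n hn1 (fun x i => ∑ p, toZ (x (e i p))) J (by
    have h1 : (J.card : ℝ) ≤ 2 * θ := by exact_mod_cast hJ1
    have h2 : α * n ≤ n / 4 := by
      have := mul_le_mul_of_nonneg_right hα4 hnR.le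
      linarith
    have : ((2 * J.card : ℕ) : ℝ) ≤ n := by
      push_cast
      linarith
    exact_mod_cast this)
  have hzero : ∀ y : Fin (K * n) → ZMod 2, wt y ≤ θ → comb e y = 0 → ∑ i, y i * c i = 0 := by
    intro y hy1 hy2
    refine sum_eq_zero fun i _ => ?_
    by_cases hi : i ∈ J
    · rw [hc1 i hi, mul_zero]
    · rw [hJ2 y hy1 hy2 i hi, zero_mul]
  have hθ2 : 2 ≤ θ := by
    have : (2 : ℝ) ≤ θ := by linarith
    exact_mod_cast this
  have v₀ : Fin n := ⟨0, hn1⟩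
  refine ⟨inst e E v₀ 0, inst e E v₀ c, ?_, ?_, h3 m n d (K * n) T (Fin pad) e E v₀, ?_, ?_⟩
  · rw [hd]
    exact h2 m n d (K * n) T (Fin pad) e E v₀ 0 hd1
  · rw [hd]
    exact h2 m n d (K * n) T (Fin pad) e E v₀ c hd1
  · intro x
    exact pair_gap h4 k d K n m T pad hd hn1 hKpos hTk hpadlt hmd e hinj E v₀ c x (hc2 x)
  intro s C hsym hne
  by_contra hcon
  push Not at hcon
  apply hne
  have hcol : ∀ t, t₁ ≤ t → t ≤ t₂ → s < n.choose t := by
    intro t ht1 ht2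
    have h1 : (n : ℝ) / 2 - δ * n ≤ t := by
      refine le_trans (Nat.le_ceil _) ?_
      rw [← ht₁]
      exact_mod_cast ht1
    have h2 : (t : ℝ) ≤ n / 2 + δ * n := by
      refine le_trans ?_ (Nat.floor_le (by positivity))
      rw [← ht₂]
      exact_mod_cast ht2
    have h3 := hC n hnC t (by rw [abs_le]; constructor <;> linarith)
    have h4 : (2 : ℝ) ^ ((1 - 500 * L ^ 2 / k) * n) ≤ (2 : ℝ) ^ ((1 - 12 * δ ^ 2) * n) := by
      refine Real.rpow_le_rpow_of_exponent_le (by norm_num) ?_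
      refine mul_le_mul_of_nonneg_right ?_ hnR.le
      linarith
    exact_mod_cast lt_of_lt_of_le hcon (h4.trans h3.le)
  have hrow : ∀ t, q ≤ t → t ≤ 2 * θ → s < (K * n * T).choose t := by
    intro t ht1 ht2
    have h1 : α₂ * n ≤ t := le_trans hqge (by exact_mod_cast ht1)
    have h2 : (t : ℝ) ≤ α * n := by
      have : (t : ℝ) ≤ 2 * θ := by exact_mod_cast ht2
      linarith
    have hKT : K₁ * n ≤ K * n * T := by
      have h3 : K₁ ≤ T := by
        have := le_max_left K₁ (2 * k)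
        omega
      calc K₁ * n ≤ T * n := Nat.mul_le_mul_right _ h3
        _ = 1 * n * T := by ring
        _ ≤ K * n * T := by gcongr; exact hKpos
    have h4 := hK₁ n (K * n * T) hKT t h1 h2
    refine lt_of_lt_of_le ?_ h4
    have h5 : (s : ℝ) < 2 ^ n := by
      refine lt_of_lt_of_le hcon ?_
      have h9 : (2 : ℝ) ^ n = (2 : ℝ) ^ (n : ℝ) := (Real.rpow_natCast 2 n).symm
      rw [h9]
      refine Real.rpow_le_rpow_of_exponent_le (by norm_num) ?_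
      have h6 : (0 : ℝ) ≤ 500 * L ^ 2 / k * n := by positivity
      linarith
    exact_mod_cast h5
  exact h1 m n s d (K * n) T (Fin pad) e E v₀ c C θ q t₁ t₂ hsym hinj hθ2 hcol hrow
    hmid' hzero

theorem fin2 (h1 : T_CORE) (h2 : T_WID) (h3 : T_SAT) (h4 : T_VIO) (h5 : T_SUPP)
    (h6 : T_SHIFTG) (h7 : T_MATG) (h8 : T_CHOG) (h9 : T_CROW) : Main2 := by
  intro k hk2
  rcases le_or_gt (k : ℝ) (500 * Real.log k ^ 2) with h | h
  · exact fin2_small h2 h3 h4 h6 k hk2 h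
  · exact fin2_large h1 h2 h3 h4 h5 h6 h7 h8 h9 k hk2 h

end Pool.Agent.H60.SYM
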