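import Mathlib

/-!
Symmetric circuits and CNF formulas (MP_c62aed_lc): the definitions used by the statement.
-/

namespace Pool.Agent.H60.SYM

open Finset

/-- Positions of the incidence matrix of a CNF formula with `m` clauses and `n` variables: clause
`j`, variable `v`, Boolean `b`; the literal `(v, b)` is true under `x` when `x v = b`. -/
abbrev Pos (m n : ℕ) := Fin m × Fin n × Bool

/-- Circuits with `s` gates reading inputs from `I`. Input gates read a position. The other gates
compute an arbitrary function of the numbers of true gates attached by wires of label `c + 1`. -/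
structure Circuit (I : Type) (s : ℕ) where
  inp : Fin s → Option I
  lab : Fin s → Fin s → ℕ
  acyclic : ∀ g h, lab g h ≠ 0 → h < g
  fn : Fin s → (ℕ → ℕ) → Bool
  out : Fin s

/-- value of the gate `g` on the input `φ` -/
noncomputable def Circuit.val {I : Type} {s : ℕ} (C : Circuit I s) (φ : I → Bool) (g : Fin s) :
    Bool :=
  match C.inp g with
  | some i => φ i
  | none => C.fn g fun c =>
      (univ.filter fun h : {h : Fin s // h < g} =>
        C.lab g h = c + 1 ∧ C.val φ h = true).card
termination_by g
decreasing_by
  · exact h.2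
  · exact a.2

/-- `a` is an automorphism of the circuit that extends the map `γ` of the input positions -/
def Circuit.Extends {I : Type} {s : ℕ} (C : Circuit I s) (γ : I → I) (a : Equiv.Perm (Fin s)) :
    Prop :=
  a C.out = C.out ∧ (∀ g, C.inp (a g) = (C.inp g).map γ) ∧ (∀ g, C.fn (a g) = C.fn g) ∧
    ∀ g h, C.lab (a g) (a h) = C.lab g h

/-- permutation `π` of the clauses, `τ` of the variables, and exchange of the two literals of the
variables `v` with `f v = true` -/
def move {m n : ℕ} (π : Equiv.Perm (Fin m)) (τ : Equiv.Perm (Fin n)) (f : Fin n → Bool) :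
    Pos m n → Pos m n :=
  fun q => (π q.1, τ q.2.1, xor (f q.2.1) q.2.2)

/-- symmetric circuits -/
def Circuit.Symmetric {m n s : ℕ} (C : Circuit (Pos m n) s) : Prop :=
  ∀ (π : Equiv.Perm (Fin m)) (τ : Equiv.Perm (Fin n)) (f : Fin n → Bool),
    ∃ a, C.Extends (move π τ f) a

/-- all literals of the clause `j` are false -/
def Violates {m n : ℕ} (φ : Pos m n → Bool) (x : Fin n → Bool) (j : Fin m) : Prop :=
  ∀ v, φ (j, v, x v) = false

def Satisfiable {m n : ℕ} (φ : Pos m n → Bool) : Prop :=
  ∃ x, ∀ j, ¬ Violates φ x j

/-- every clause has at most `k` literals -/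
def WidthLE {m n : ℕ} (k : ℕ) (φ : Pos m n → Bool) : Prop :=
  ∀ j, (univ.filter fun l : Fin n × Bool => φ (j, l) = true).card ≤ k

end Pool.Agent.H60.SYM
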