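import Pool.Agent.H60.SYM.Defs

/-!
Gap-SETH for symmetric circuits (MP_c62aed_lc): module targets.
-/

namespace Pool.Agent.H60.SYM

open Finset

/-! ### Circuits -/

/-- VAL: the evaluation equation, with the sum over all gates -/
def T_VAL : Prop :=
  ∀ (I : Type) (s : ℕ) (C : Circuit I s) (φ : I → Bool) (g : Fin s),
    (∀ i, C.inp g = some i → C.val φ g = φ i) ∧
    (C.inp g = none → C.val φ g = C.fn g fun c =>
      (univ.filter fun h : Fin s => C.lab g h = c + 1 ∧ C.val φ h = true).card)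

/-- AUT: automorphisms, their composition and inverse, and the values of the gates -/
def T_AUT : Prop :=
  ∀ (I : Type) (s : ℕ) (C : Circuit I s),
    C.Extends (fun i => i) 1 ∧
    (∀ γ₁ γ₂ a₁ a₂, C.Extends γ₁ a₁ → C.Extends γ₂ a₂ → C.Extends (γ₁ ∘ γ₂) (a₁ * a₂)) ∧
    (∀ (γ γ' : I → I) a, (∀ i, γ' (γ i) = i) → C.Extends γ a → C.Extends γ' a⁻¹) ∧
    (∀ γ a, C.Extends γ a → ∀ (φ : I → Bool) g, C.val (fun i => φ (γ i)) g = C.val φ (a g))

/-! ### Linear algebra over `ZMod 2` and orbit counting -/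

/-- EXT: extension of a functional by an element of a subspace -/
def T_EXT : Prop :=
  ∀ (V Y : Type) [AddCommGroup V] [Module (ZMod 2) V] [Finite V] [AddCommGroup Y]
    [Module (ZMod 2) Y] (S : Submodule (ZMod 2) V) (Y₀ : Submodule (ZMod 2) Y)
    (N : Y →ₗ[ZMod 2] V →ₗ[ZMod 2] ZMod 2) (D : Y →ₗ[ZMod 2] ZMod 2),
    (∀ y ∈ Y₀, (∀ v ∈ S, N y v = 0) → D y = 0) → ∃ v ∈ S, ∀ y ∈ Y₀, N y v = D y

/-- ORB: functionals that vanish on stabilisers of gates are at most as many as gates -/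
def T_ORB : Prop :=
  ∀ (s : ℕ) (V : Type) [AddCommGroup V] [Module (ZMod 2) V] [Finite V]
    (L : V → Equiv.Perm (Fin s) → Prop), L 0 1 →
    (∀ v w a b, L v a → L w b → L (v + w) (a * b)) → (∀ v a, L v a → L v a⁻¹) →
    (∀ v, ∃ a, L v a) →
    ∀ Ω : Finset (V →ₗ[ZMod 2] ZMod 2),
      (∀ ω ∈ Ω, ∃ g, ∀ v a, L v a → a g = g → ω v = 0) → Ω.card ≤ s

/-- COL: flips and permutations of the variables -/
def T_COL : Prop :=
  ∀ (m n s : ℕ) (C : Circuit (Pos m n) s), C.Symmetric → ∀ (g : Fin s) (A : Finset (Fin n)),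
    (∀ (F : Fin n → ZMod 2) a, C.Extends (move 1 1 fun v => toB (F v)) a → a g = g →
      ∑ v ∈ A, F v = 0) → n.choose A.card ≤ s

/-- ROW: translations in the blocks and permutations of the blocks -/
def T_ROW : Prop :=
  ∀ (m n s d : ℕ) (B P : Type) [Fintype B] [DecidableEq B]
    (E : Fin m ≃ (B × (Fin d → ZMod 2)) ⊕ P) (C : Circuit (Pos m n) s), C.Symmetric →
    ∀ (g : Fin s) (r : B → Fin d → ZMod 2),
      (∀ (κ : B → Fin d → ZMod 2) a, C.Extends (move (rowPerm E κ) 1 fun _ => false) a →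
        a g = g → ∑ b, ∑ p, r b p * κ b p = 0) →
      (Fintype.card B).choose (univ.filter fun b => r b ≠ 0).card ≤ s

/-! ### Indistinguishability -/

/-- IND: abstract induction over the gates -/
def T_IND : Prop :=
  ∀ (I : Type) (s : ℕ) (C : Circuit I s) (V Y : Type) [AddCommGroup V] [Module (ZMod 2) V]
    [Finite V] [AddCommGroup Y] [Module (ZMod 2) Y] (act : V → I → I)
    (N : Y →ₗ[ZMod 2] V →ₗ[ZMod 2] ZMod 2) (cc : Y →ₗ[ZMod 2] ZMod 2) (w : Y → ℕ) (θ : ℕ)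
    (φ₀ φ₁ : I → Bool),
    (∀ v v' i, act (v + v') i = act v (act v' i)) → (∀ i, act 0 i = i) →
    (∀ v, ∃ a, C.Extends (act v) a) →
    w 0 = 0 → (∀ y y', w (y + y') ≤ w y + w y') →
    (∀ g y, θ < w y → w y ≤ 2 * θ → ∃ v a, C.Extends (act v) a ∧ a g = g ∧ N y v ≠ 0) →
    (∀ i v, (∀ y, w y ≤ θ → (∀ u, act u i = i → N y u = 0) → N y v = cc y) →
      φ₀ i = φ₁ (act v i)) →
    (∀ y, w y ≤ θ → N y = 0 → cc y = 0) →
    C.val φ₀ C.out = C.val φ₁ C.out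

/-- ACT: the action of the group on the positions -/
def T_ACT : Prop :=
  ∀ (m n d M T : ℕ) (P : Type) (E : Fin m ≃ (Blocks M T × (Fin d → ZMod 2)) ⊕ P),
    (∀ (u u' : VV n d M T) i, act E (u + u') i = act E u (act E u' i)) ∧
    (∀ i, act E (0 : VV n d M T) i = i) ∧
    (∀ j b z (κ : Blocks M T → Fin d → ZMod 2), E j = Sum.inl (b, z) →
      E (rowPerm E κ j) = Sum.inl (b, z + κ b)) ∧
    (∀ j p (κ : Blocks M T → Fin d → ZMod 2), E j = Sum.inr p → rowPerm E κ j = j)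

/-- INP: compatibility of the two formulas on one position -/
def T_INP : Prop :=
  ∀ (m n d M T : ℕ) (P : Type) (e : Fin M → Fin (d + 1) → Fin n)
    (E : Fin m ≃ (Blocks M T × (Fin d → ZMod 2)) ⊕ P) (v₀ : Fin n) (c : Fin M → ZMod 2)
    (θ : ℕ), (∀ i, Function.Injective (e i)) → 2 ≤ θ → ∀ (i : Pos m n) (u : VV n d M T),
    (∀ y : YY d M T, wy y ≤ θ → (∀ u' : VV n d M T, act E u' i = i → NN e y u' = 0) →
      NN e y u = ∑ j, y.1 j * c j) →
    inst e E v₀ 0 i = inst e E v₀ c (act E u i)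

/-- GAP: no condition of medium weight at any gate. The number `S` is the number of gates to be
excluded, `t₁, t₂` the range of middle weights, `q` the threshold for the number of blocks. -/
def T_GAP : Prop :=
  ∀ (m n s d M T : ℕ) (P : Type) (e : Fin M → Fin (d + 1) → Fin n)
    (E : Fin m ≃ (Blocks M T × (Fin d → ZMod 2)) ⊕ P) (C : Circuit (Pos m n) s)
    (θ q t₁ t₂ : ℕ), C.Symmetric →
    (∀ t, t₁ ≤ t → t ≤ t₂ → s < n.choose t) →
    (∀ t, q ≤ t → t ≤ 2 * θ → s < (M * T).choose t) →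
    (∀ y : Fin M → ZMod 2, θ < wt y + q → wt y ≤ 2 * θ →
      t₁ + d * q ≤ wt (comb e y) ∧ wt (comb e y) + d * q ≤ t₂) →
    ∀ (g : Fin s) (y : YY d M T), θ < wy y → wy y ≤ 2 * θ →
      ∃ (u : VV n d M T) (a : _), C.Extends (act E u) a ∧ a g = g ∧ NN e y u ≠ 0

/-- CORE: a symmetric circuit with few gates gives the same answer on the two formulas -/
def T_CORE : Prop :=
  ∀ (m n s d M T : ℕ) (P : Type) (e : Fin M → Fin (d + 1) → Fin n)
    (E : Fin m ≃ (Blocks M T × (Fin d → ZMod 2)) ⊕ P) (v₀ : Fin n) (c : Fin M → ZMod 2)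
    (C : Circuit (Pos m n) s) (θ q t₁ t₂ : ℕ), C.Symmetric →
    (∀ i, Function.Injective (e i)) → 2 ≤ θ →
    (∀ t, t₁ ≤ t → t ≤ t₂ → s < n.choose t) →
    (∀ t, q ≤ t → t ≤ 2 * θ → s < (M * T).choose t) →
    (∀ y : Fin M → ZMod 2, θ < wt y + q → wt y ≤ 2 * θ →
      t₁ + d * q ≤ wt (comb e y) ∧ wt (comb e y) + d * q ≤ t₂) →
    (∀ y : Fin M → ZMod 2, wt y ≤ θ → comb e y = 0 → ∑ i, y i * c i = 0) →
    C.val (inst e E v₀ 0) C.out = C.val (inst e E v₀ c) C.out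

/-! ### The formulas -/

def T_WID : Prop :=
  ∀ (m n d M T : ℕ) (P : Type) (e : Fin M → Fin (d + 1) → Fin n)
    (E : Fin m ≃ (Blocks M T × (Fin d → ZMod 2)) ⊕ P) (v₀ : Fin n) (c : Fin M → ZMod 2),
    1 ≤ d → WidthLE (d + 1) (inst e E v₀ c)

def T_SAT : Prop :=
  ∀ (m n d M T : ℕ) (P : Type) (e : Fin M → Fin (d + 1) → Fin n)
    (E : Fin m ≃ (Blocks M T × (Fin d → ZMod 2)) ⊕ P) (v₀ : Fin n),
    Satisfiable (inst e E v₀ 0)

/-- VIO: every violated equation gives exactly one violated clause in each of its blocks -/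
def T_VIO : Prop :=
  ∀ (m n d M T : ℕ) (P : Type) (e : Fin M → Fin (d + 1) → Fin n)
    (E : Fin m ≃ (Blocks M T × (Fin d → ZMod 2)) ⊕ P) (v₀ : Fin n) (c : Fin M → ZMod 2)
    (x : Fin n → Bool), (∀ i, Function.Injective (e i)) →
    Nat.card {j // Violates (inst e E v₀ c) x j} =
      T * (univ.filter fun i => ∑ p, toZ (x (e i p)) ≠ c i).card

/-- SUPP: the small relations live on few equations -/
def T_SUPP : Prop :=
  ∀ (n d M θ : ℕ) (e : Fin M → Fin (d + 1) → Fin n),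
    (∀ y : Fin M → ZMod 2, θ < wt y → wt y ≤ 2 * θ → comb e y ≠ 0) →
    ∃ J : Finset (Fin M), J.card ≤ 2 * θ ∧
      ∀ y : Fin M → ZMod 2, wt y ≤ θ → comb e y = 0 → ∀ i ∉ J, y i = 0

/-! ### Numbers and probability -/

/-- HOEF: Hoeffding bound for the weight of a random vector -/
def T_HOEF : Prop :=
  ∀ (ι : Type) [Fintype ι] [DecidableEq ι] (a : ℝ), 0 ≤ a → 0 < Fintype.card ι →
    ((univ.filter fun z : ι → ZMod 2 => a ≤ |(wt z : ℝ) - Fintype.card ι / 2|).card : ℝ) ≤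
      2 * 2 ^ Fintype.card ι * Real.exp (-(2 * a ^ 2 / Fintype.card ι))

/-- SHIFT: right hand sides that are far from all of `2 ^ n` given vectors -/
def T_SHIFT : Prop :=
  ∀ ε : ℝ, 0 < ε → ∃ K : ℕ, 0 < K ∧ ∀ n : ℕ, 0 < n →
    ∀ (u : (Fin n → Bool) → Fin (K * n) → ZMod 2) (J : Finset (Fin (K * n))),
      2 * J.card ≤ n → ∃ c : Fin (K * n) → ZMod 2, (∀ i ∈ J, c i = 0) ∧
        ∀ x, (1 / 2 - ε) * (K * n : ℕ) ≤ ((univ.filter fun i => u x i ≠ c i).card : ℝ)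

/-- BIN: the one-part estimate -/
def T_BIN : Prop :=
  ∀ N t : ℕ, 0 < N →
    (∑ i ∈ range (N + 1), (N.choose i : ℝ) * |(N : ℝ) - 2 * i| ^ t) ≤
      2 * (N : ℝ) ^ t * (1 + Real.exp (-(2 * t / N))) ^ N

/-- the parts: a system `e` in which the `p`-th variable of an equation is congruent to `p` -/
def Partite {M n d : ℕ} (e : Fin M → Fin (d + 1) → Fin n) : Prop :=
  ∀ i p, (e i p : ℕ) % (d + 1) = p

/-- FOU: for fixed `y` of weight `t` few systems have a prescribed combination -/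
def T_FOU : Prop :=
  ∀ (n d M : ℕ) (y : Fin M → ZMod 2) (z : Fin n → ZMod 2), d + 1 ≤ n →
    (Nat.card {e : Fin M → Fin (d + 1) → Fin n // Partite e ∧ comb e y = z} : ℝ) ≤
      Nat.card {e : Fin M → Fin (d + 1) → Fin n // Partite e} *
        (2 ^ (d + 1) / 2 ^ n *
          (1 + Real.exp (-(2 * wt y * (d + 1) / (n + d + 1)))) ^ n)

/-- MAT: existence of the system -/
def T_MAT : Prop :=
  ∀ δ : ℝ, 0 < δ → ∀ K : ℕ, 0 < K → ∃ α : ℝ, 0 < α ∧ α ≤ 1 / 4 ∧ ∃ d₀ : ℕ, ∀ d ≥ d₀, ∃ n₀ : ℕ,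
    ∀ n ≥ n₀, ∃ e : Fin (K * n) → Fin (d + 1) → Fin n,
      (∀ i, Function.Injective (e i)) ∧
      ∀ y : Fin (K * n) → ZMod 2, α * n / 8 ≤ wt y → wt y ≤ α * n →
        |(wt (comb e y) : ℝ) - n / 2| ≤ δ * n

/-- CHO: binomial coefficients near the middle -/
def T_CHO : Prop :=
  ∀ ε : ℝ, 0 < ε → ∃ δ : ℝ, 0 < δ ∧ δ ≤ 1 / 4 ∧ ∃ n₀ : ℕ, ∀ n ≥ n₀, ∀ t : ℕ,
    |(t : ℝ) - n / 2| ≤ δ * n → (2 : ℝ) ^ ((1 - ε) * n) < n.choose t

/-- CROW: binomial coefficients for the rows -/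
def T_CROW : Prop :=
  ∀ α α₂ : ℝ, 0 < α₂ → α₂ ≤ α → ∃ K₁ : ℕ, ∀ n N : ℕ, K₁ * n ≤ N → ∀ q : ℕ,
    α₂ * n ≤ q → q ≤ α * n → 2 ^ n ≤ N.choose q

/-- FIN: assembly -/
def T_FIN : Prop :=
  T_CORE → T_WID → T_SAT → T_VIO → T_SUPP → T_SHIFT → T_MAT → T_CHO → T_CROW → Main

end Pool.Agent.H60.SYM
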